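import Pool.Agent.Q172.PS.N6
import Mathlib.Analysis.Analytic.IsolatedZeros

/-!
# Exponentially small filters do not vanish near frequency zero (helper172)
-/

set_option autoImplicit false

namespace Pool.Agent.Q172.LI

open Finset MeasureTheory Filter Topology Complex

/-- two-sided geometric series -/
lemma sum_geo {ρ : ℝ} (h0 : 0 ≤ ρ) (h1 : ρ < 1) : Summable fun j : ℤ => ρ ^ j.natAbs := by
  have h := summable_geometric_of_lt_one h0 h1
  refine Summable.of_nat_of_neg ?_ ?_
  · simpa using h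
  · simpa using h

/-- with a linear weight -/
lemma sum_geo' {ρ : ℝ} (h0 : 0 ≤ ρ) (h1 : ρ < 1) :
    Summable fun j : ℤ => ρ ^ j.natAbs * (2 + (j.natAbs : ℝ)) := by
  have h := summable_geometric_of_lt_one h0 h1
  have h2 : Summable fun n : ℕ => (n : ℝ) ^ 1 * ρ ^ n :=
    summable_pow_mul_geometric_of_norm_lt_one 1 (by rwa [Real.norm_of_nonneg h0])
  have h3 : Summable fun n : ℕ => ρ ^ n * (2 + (n : ℝ)) := by
    refine ((h.mul_left 2).add h2).congr fun n => ?_
    ring
  refine Summable.of_nat_of_neg ?_ ?_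
  · simpa using h3
  · simpa using h3

/-- the transfer function of a filter -/
noncomputable def ch (c : ℤ → ℝ) (w : ℂ) : ℂ := ∑' j : ℤ, (c j : ℂ) * cexp (I * j * w)

variable {c : ℤ → ℝ} {K r : ℝ}

lemma term_bd (hr : 0 < r) (hr1 : r < 1) (hc : ∀ j, |c j| ≤ K * r ^ j.natAbs) {w : ℂ}
    (hw : |w.im| < -Real.log r / 2) (j : ℤ) :
    ‖(c j : ℂ) * cexp (I * j * w)‖ ≤ K * (Real.sqrt r) ^ j.natAbs := by
  have hK : 0 ≤ K := by
    have := (abs_nonneg _).trans (hc 0)
    simpa using this
  rw [norm_mul, Complex.norm_real, Complex.norm_exp, Real.norm_eq_abs]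
  have e1 : (I * (j : ℂ) * w).re = -(j * w.im) := by
    simp [Complex.mul_re, Complex.mul_im]
  rw [e1]
  have h1 : -(j * w.im) ≤ (j.natAbs : ℝ) * (-Real.log r / 2) := by
    have h2 : |(j : ℝ) * w.im| ≤ (j.natAbs : ℝ) * (-Real.log r / 2) := by
      rw [abs_mul]
      have e2 : (j.natAbs : ℝ) = |(j : ℝ)| := by rw [Nat.cast_natAbs]; push_cast; rfl
      rw [e2]
      exact mul_le_mul_of_nonneg_left hw.le (abs_nonneg _)
    linarith [neg_abs_le ((j : ℝ) * w.im)]
  have h3 : Real.exp (-(j * w.im)) ≤ (Real.sqrt r)⁻¹ ^ j.natAbs := by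
    refine (Real.exp_le_exp.2 h1).trans (le_of_eq ?_)
    rw [mul_comm, Real.exp_mul, Real.rpow_natCast]
    congr 1
    rw [neg_div, Real.exp_neg]
    congr 1
    rw [Real.sqrt_eq_rpow, Real.rpow_def_of_pos hr]
    congr 1
    ring
  have hs : 0 < Real.sqrt r := Real.sqrt_pos.2 hr
  calc |c j| * Real.exp (-(j * w.im)) ≤ (K * r ^ j.natAbs) * (Real.sqrt r)⁻¹ ^ j.natAbs :=
        mul_le_mul (hc j) h3 (Real.exp_pos _).le (by positivity)
    _ = K * (Real.sqrt r) ^ j.natAbs := by
        rw [mul_assoc, ← mul_pow]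
        congr 2
        nth_rewrite 1 [← Real.mul_self_sqrt hr.le]
        field_simp

lemma ch_diff (hr : 0 < r) (hr1 : r < 1) (hc : ∀ j, |c j| ≤ K * r ^ j.natAbs) :
    DifferentiableOn ℂ (ch c) {w : ℂ | |w.im| < -Real.log r / 2} := by
  have hs1 : Real.sqrt r < 1 := by
    rw [Real.sqrt_lt' one_pos]; simpa using hr1
  have ho : IsOpen {w : ℂ | |w.im| < -Real.log r / 2} :=
    isOpen_lt (by fun_prop) continuous_const
  refine differentiableOn_tsum_of_summable_norm (u := fun j : ℤ => K * (Real.sqrt r) ^ j.natAbs)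
    ((sum_geo (Real.sqrt_nonneg _) hs1).mul_left K) (fun j => ?_) ho fun j w hw => term_bd hr hr1 hc hw j
  fun_prop

/-- coefficients from the values on the real line -/
lemma coef_zero (hr : 0 < r) (hr1 : r < 1) (hc : ∀ j, |c j| ≤ K * r ^ j.natAbs)
    (h0 : ∀ x : ℝ, ch c x = 0) (k : ℤ) : c k = 0 := by
  have hpi := Real.pi_pos
  have hK : 0 ≤ K := by
    have := (abs_nonneg _).trans (hc 0)
    simpa using this
  set F : ℤ → ℝ → ℂ := fun j x => (c j : ℂ) * cexp (I * j * x) * cexp (-(I * k * x)) with hF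
  have hint : ∀ j, Integrable (F j) (volume.restrict (Set.Ioc 0 (2 * Real.pi))) := by
    intro j
    refine (Continuous.integrableOn_Icc ?_).mono_set Set.Ioc_subset_Icc_self
    rw [hF]; fun_prop
  have hn : ∀ j x, ‖F j x‖ = |c j| := by
    intro j x
    rw [hF]
    simp only
    rw [norm_mul, norm_mul, Complex.norm_real, Real.norm_eq_abs, Complex.norm_exp, Complex.norm_exp]
    have e1 : (I * (j : ℂ) * (x : ℂ)).re = 0 := by simp [Complex.mul_re, Complex.mul_im]
    have e2 : (-(I * (k : ℂ) * (x : ℂ))).re = 0 := by simp [Complex.mul_re, Complex.mul_im]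
    rw [e1, e2, Real.exp_zero, mul_one, mul_one]
  have hsum : Summable fun j => ∫ x, ‖F j x‖ ∂(volume.restrict (Set.Ioc 0 (2 * Real.pi))) := by
    have e : ∀ j, ∫ x, ‖F j x‖ ∂(volume.restrict (Set.Ioc 0 (2 * Real.pi))) = 2 * Real.pi * |c j| := by
      intro j
      simp only [hn, integral_const, smul_eq_mul]
      rw [measureReal_restrict_apply_univ, Real.volume_real_Ioc_of_le (by positivity)]
      ring
    simp only [e]
    refine Summable.mul_left _ (Summable.of_nonneg_of_le (fun j => abs_nonneg _) hc ?_)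
    exact (sum_geo hr.le hr1).mul_left K
  have h1 := hasSum_integral_of_summable_integral_norm hint hsum
  have h2 : ∫ x, (∑' j, F j x) ∂(volume.restrict (Set.Ioc 0 (2 * Real.pi))) = 0 := by
    have : ∀ x : ℝ, ∑' j, F j x = 0 := by
      intro x
      have h3 := h0 x
      unfold ch at h3
      rw [hF]
      simp only
      rw [tsum_mul_right, h3, zero_mul]
    simp only [this, integral_zero]
  rw [h2] at h1
  have h4 : ∀ j, ∫ x, F j x ∂(volume.restrict (Set.Ioc 0 (2 * Real.pi))) =
      if j = k then (2 * Real.pi * c k : ℂ) else 0 := by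
    intro j
    rw [← intervalIntegral.integral_of_le (by positivity)]
    have e1 : ∀ x : ℝ, F j x = (c j : ℂ) * cexp ((I * (j - k)) * x) := by
      intro x
      rw [hF]
      simp only
      rw [mul_assoc, ← Complex.exp_add]
      congr 2
      ring
    simp only [e1]
    rw [intervalIntegral.integral_const_mul]
    by_cases hjk : j = k
    · rw [if_pos hjk, hjk]
      simp
      ring
    · rw [if_neg hjk, integral_exp_mul_complex]
      · have e2 : cexp (I * ((j : ℂ) - k) * ((2 * Real.pi : ℝ) : ℂ)) = 1 := by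
          rw [Complex.exp_eq_one_iff]
          refine ⟨j - k, ?_⟩
          push_cast
          ring
        rw [e2]
        simp
      · refine mul_ne_zero I_ne_zero ?_
        rw [sub_ne_zero]
        exact_mod_cast hjk
  simp only [h4] at h1
  have h5 := hasSum_ite_eq k (2 * Real.pi * c k : ℂ)
  have h6 := h1.unique h5
  have h7 : (2 * Real.pi * c k : ℂ) = ((2 * Real.pi * c k : ℝ) : ℂ) := by push_cast; ring
  rw [h7] at h6
  have h8 : 2 * Real.pi * c k = 0 := by exact_mod_cast h6.symm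
  have h9 : 2 * Real.pi ≠ 0 := by positivity
  exact (mul_eq_zero.1 h8).resolve_left h9

/-- the transfer function has no zeros next to the frequency zero -/
theorem ch_ne (hr : 0 < r) (hr1 : r < 1) (hc : ∀ j, |c j| ≤ K * r ^ j.natAbs) (hne : ∃ j, c j ≠ 0) :
    ∃ x1 : ℝ, 0 < x1 ∧ ∀ x : ℝ, 0 < x → x ≤ x1 → ch c x ≠ 0 := by
  have hl : 0 < -Real.log r / 2 := by
    have := Real.log_neg hr hr1
    linarith
  have ho : IsOpen {w : ℂ | |w.im| < -Real.log r / 2} :=
    isOpen_lt (by fun_prop) continuous_const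
  have hconv : IsPreconnected {w : ℂ | |w.im| < -Real.log r / 2} := by
    have : Convex ℝ {w : ℂ | |w.im| < -Real.log r / 2} := by
      have e : {w : ℂ | |w.im| < -Real.log r / 2} =
          Complex.imCLM ⁻¹' (Set.Ioo (-(-Real.log r / 2)) (-Real.log r / 2)) := by
        ext w
        simp only [Set.mem_ofPred_eq, Set.mem_preimage, Complex.imCLM_apply, Set.mem_Ioo, abs_lt]
      rw [e]
      exact (convex_Ioo _ _).affine_preimage (Complex.imCLM : ℂ →L[ℝ] ℝ).toLinearMap.toAffineMap
    exact this.isPreconnected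
  have han : AnalyticOnNhd ℂ (ch c) {w : ℂ | |w.im| < -Real.log r / 2} :=
    (ch_diff hr hr1 hc).analyticOnNhd ho
  by_contra hcon
  push Not at hcon
  have hfr : ∃ᶠ z in 𝓝[≠] (0 : ℂ), ch c z = 0 := by
    rw [Filter.frequently_iff]
    intro U hU
    rw [mem_nhdsWithin] at hU
    obtain ⟨V, hV, h0V, hVU⟩ := hU
    obtain ⟨δ, hδ, hball⟩ := Metric.isOpen_iff.1 hV 0 h0V
    obtain ⟨x, hx0, hx1, hx⟩ := hcon (δ / 2) (by positivity)
    refine ⟨(x : ℂ), hVU ⟨hball ?_, ?_⟩, hx⟩
    · rw [Metric.mem_ball, dist_zero_right, Complex.norm_real, Real.norm_of_nonneg hx0.le]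
      linarith
    · rw [Set.mem_compl_iff, Set.mem_singleton_iff]
      exact_mod_cast hx0.ne'
  have heq := han.eqOn_zero_of_preconnected_of_frequently_eq_zero hconv (z₀ := 0) (by simpa using hl) hfr
  obtain ⟨j, hj⟩ := hne
  refine hj (coef_zero hr hr1 hc (fun x => ?_) j)
  have := heq (x := (x : ℂ)) (by simpa using hl)
  simpa using this

end Pool.Agent.Q172.LI
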