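import Pool.Agent.Q172.LI.A
import Pool.Agent.Q172.PS.N8
import Pool.Agent.Q276.UR.C1

/-!
# Exponentially small filters do not annihilate the limit processes of the gaps (helper172)
-/

set_option autoImplicit false

namespace Pool.Agent.Q172.LI

open Finset MeasureTheory Filter Topology Complex
open Pool.Agent.Q278.GF Pool.Agent.Q278.MC Pool.Agent.Q278.KM
open Pool.Agent.Q172.PS
open _root_.Q172.ZetaLim (IsLim seen map_shift shift)
open _root_.Q172.Mem (memLp_P)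
open scoped ComplexConjugate

variable {c : ℤ → ℝ} {K r : ℝ}

/-- the truncated filter -/
noncomputable def YJ (c : ℤ → ℝ) (J : ℕ) (q : ℤ → ℝ) : ℝ := ∑ j ∈ Icc (-(J : ℤ)) J, c j * q j

lemma YJ_PG (c : ℤ → ℝ) (J : ℕ) : PG (YJ c J) := by
  unfold YJ
  exact PG.sum _ fun j _ => (PG.const (c j)).mul (PG.coord j)

lemma rigid_dl : ∃ C : ℝ, 0 < C ∧ _root_.Q172.ZetaLim.RigidSeq dl C := by
  have hx : ∀ n, Pool.Agent.Q276.LR.xx n = dl n - 1 := fun n => rfl
  have hw : ∀ J k, Pool.Agent.Q276.LR.wt J k = _root_.Q172.ZetaLim.w J k := fun J k => by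
    unfold Pool.Agent.Q276.LR.wt _root_.Q172.ZetaLim.w
    rw [one_div]
  have hu : ∀ J K k, Pool.Agent.Q276.LR.ut J K k = _root_.Q172.ZetaLim.u J K k := fun J K k => by
    unfold Pool.Agent.Q276.LR.ut _root_.Q172.ZetaLim.u
    rw [one_div]
    simp only [hw]
  obtain ⟨C, hC, h⟩ := Pool.Agent.Q276.UR.blocks_uncond
  refine ⟨C, hC, fun J K hJ hK => ?_⟩
  filter_upwards [h J K hJ hK] with N hN
  unfold Pool.Agent.Q276.LR.BB at hN
  simp only [hx, hu] at hN
  exact hN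

lemma mean_P {P : ProbabilityMeasure (ℤ → ℝ)} (hP : IsLim (seen dl) P) (k : ℤ) :
    ∫ q, q k ∂(P : Measure (ℤ → ℝ)) = 1 := by
  have hi : ∀ k : ℤ, Integrable (fun q : ℤ → ℝ => q k) (P : Measure (ℤ → ℝ)) :=
    fun k => (PG.coord k).integrable hP
  obtain ⟨C, hC, hr⟩ := rigid_dl
  have h1 := _root_.Q172.ZetaLim.mean_one hr hP hi MeasurableSet.univ rfl
  rw [setIntegral_univ, probReal_univ] at h1
  have h2 := _root_.Q172.Mem.int_stat (map_shift hP) (G := fun x => x) continuous_id k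
  rw [h2]
  exact h1

/-- the fourth moments of the truncated filters are bounded -/
lemma four_P (hr : 0 < r) (hr1 : r < 1) (hc : ∀ j, |c j| ≤ K * r ^ j.natAbs)
    {P : ProbabilityMeasure (ℤ → ℝ)} (hP : IsLim (seen dl) P) :
    ∃ D : ℝ, 0 < D ∧ ∀ J : ℕ, ∫ q, YJ c J q ^ 4 ∂(P : Measure (ℤ → ℝ)) ≤ D := by
  obtain ⟨C, hC, h4⟩ := seen_sum 3
  have hP0 := (_root_.Q172.ZetaLim.fatou hP (F := fun q : ℤ → ℝ => |q 0| ^ 4)
    (by fun_prop) (fun q => by positivity) (a := C) fun η hη =>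
      Eventually.of_forall fun N => by
        refine (h4 0 N).trans ?_
        push_cast
        nlinarith [(Nat.cast_nonneg N : (0 : ℝ) ≤ N)]).2
  have hPk : ∀ k : ℤ, ∫ q, |q k| ^ 4 ∂(P : Measure (ℤ → ℝ)) ≤ C := by
    intro k
    have := _root_.Q172.Mem.int_stat (map_shift hP) (G := fun x => |x| ^ 4) (by fun_prop) k
    rw [this]
    exact hP0
  have hsm : Summable fun j : ℤ => |c j| :=
    Summable.of_nonneg_of_le (fun j => abs_nonneg _) hc ((sum_geo hr.le hr1).mul_left K)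
  set S := ∑' j : ℤ, |c j| with hS
  have hS0 : 0 ≤ S := tsum_nonneg fun j => abs_nonneg _
  refine ⟨S ^ 3 * (S * C) + 1, by positivity, fun J => ?_⟩
  have hJ : ∑ j ∈ Icc (-(J : ℤ)) J, |c j| ≤ S :=
    hsm.sum_le_tsum _ fun j _ => abs_nonneg _
  have hpt : ∀ q, YJ c J q ^ 4 ≤ S ^ 3 * ∑ j ∈ Icc (-(J : ℤ)) J, |c j| * |q j| ^ 4 := by
    intro q
    have h1 : |YJ c J q| ≤ ∑ j ∈ Icc (-(J : ℤ)) J, |c j| * |q j| := by
      unfold YJ
      refine (Finset.abs_sum_le_sum_abs _ _).trans (le_of_eq ?_)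
      exact Finset.sum_congr rfl fun j _ => abs_mul _ _
    have h2 := sum_pow_le (Icc (-(J : ℤ)) J) (fun j => |c j|) (fun j => |q j|)
      (fun _ _ => abs_nonneg _) (fun _ _ => abs_nonneg _) 3
    have h3 : YJ c J q ^ 4 = |YJ c J q| ^ 4 := (Even.pow_abs (by decide) _).symm
    rw [h3]
    refine (pow_le_pow_left₀ (abs_nonneg _) h1 4).trans (h2.trans ?_)
    refine mul_le_mul_of_nonneg_right (pow_le_pow_left₀ (Finset.sum_nonneg fun _ _ => abs_nonneg _) hJ 3)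
      (Finset.sum_nonneg fun _ _ => by positivity)
  have hi4 : ∀ k : ℤ, Integrable (fun q : ℤ → ℝ => |c k| * |q k| ^ 4) (P : Measure (ℤ → ℝ)) :=
    fun k => ((PG.const |c k|).mul ((PG.coord k).abs.pow 4)).integrable hP
  calc ∫ q, YJ c J q ^ 4 ∂(P : Measure (ℤ → ℝ))
      ≤ ∫ q, S ^ 3 * ∑ j ∈ Icc (-(J : ℤ)) J, |c j| * |q j| ^ 4 ∂(P : Measure (ℤ → ℝ)) := by
        refine integral_mono (((YJ_PG c J).pow 4).integrable hP) ?_ hpt
        exact (integrable_finsetSum _ fun j _ => hi4 j).const_mul _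
    _ = S ^ 3 * ∑ j ∈ Icc (-(J : ℤ)) J, |c j| * ∫ q, |q j| ^ 4 ∂(P : Measure (ℤ → ℝ)) := by
        rw [integral_const_mul, integral_finsetSum _ fun j _ => hi4 j]
        congr 1
        exact Finset.sum_congr rfl fun j _ => integral_const_mul _ _
    _ ≤ S ^ 3 * (S * C) := by
        refine mul_le_mul_of_nonneg_left ?_ (by positivity)
        refine (Finset.sum_le_sum fun j _ => mul_le_mul_of_nonneg_left (hPk j) (abs_nonneg (c j))).trans ?_
        rw [← Finset.sum_mul]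
        exact mul_le_mul_of_nonneg_right hJ hC.le
    _ ≤ S ^ 3 * (S * C) + 1 := by linarith

/-- the variance of the truncated filters is bounded below -/
lemma var_low (hr : 0 < r) (hr1 : r < 1) (hc : ∀ j, |c j| ≤ K * r ^ j.natAbs) (hne : ∃ j, c j ≠ 0)
    {P : ProbabilityMeasure (ℤ → ℝ)} (hP : IsLim (seen dl) P) :
    ∃ (v : ℝ) (J0 : ℕ), 0 < v ∧ ∀ J ≥ J0, v ≤ ∫ q, (YJ c J q) ^ 2 ∂(P : Measure (ℤ → ℝ)) := by
  have hpi := Real.pi_pos
  have hM := memLp_P hP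
  have hs := map_shift hP
  have hM1 : ∀ k : ℤ, MemLp (fun q : ℤ → ℝ => q k - 1) 2 (P : Measure (ℤ → ℝ)) := fun k => hM k
  obtain ⟨σ, hσ⟩ := exists_spec hs hM1
  have hfin := hσ.1
  obtain ⟨x1, hx1, hch⟩ := ch_ne hr hr1 hc hne
  obtain ⟨x0, hx0, hlaw⟩ := law_zero (ε := 1 / (16 * Real.pi ^ 2)) (by positivity)
  set x2 := min x1 x0 with hx2
  have hx20 : 0 < x2 := lt_min hx1 hx0
  -- mass
  have hmass : 0 < σ.real (Set.Ioc (x2 / 2) x2) := by
    have h1 := (abs_le.1 (hlaw P hP σ hσ x2 hx20 (min_le_right _ _))).1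
    have h2 := (abs_le.1 (hlaw P hP σ hσ (x2 / 2) (by positivity)
      ((half_le_self hx20.le).trans (min_le_right _ _)))).2
    have h3 : σ.real (Set.Icc 0 x2) ≤ σ.real (Set.Icc 0 (x2 / 2)) + σ.real (Set.Ioc (x2 / 2) x2) := by
      refine (measureReal_mono (h₂ := by finiteness) ?_).trans (measureReal_union_le _ _)
      intro y hy
      rcases le_or_gt y (x2 / 2) with h | h
      · exact Or.inl ⟨hy.1, h⟩
      · exact Or.inr ⟨h, hy.2⟩
    have h4 : x2 ^ 2 / (4 * Real.pi ^ 2) - 1 / (16 * Real.pi ^ 2) * x2 ^ 2 -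
        ((x2 / 2) ^ 2 / (4 * Real.pi ^ 2) + 1 / (16 * Real.pi ^ 2) * (x2 / 2) ^ 2) =
        7 / 64 * x2 ^ 2 / Real.pi ^ 2 := by
      field_simp
      ring
    have h5 : 0 < 7 / 64 * x2 ^ 2 / Real.pi ^ 2 := by positivity
    linarith
  -- lower bound for the transfer function
  have hcont : Continuous fun x : ℝ => ch c x := by
    have h1 := (ch_diff hr hr1 hc).continuousOn
    have hl : 0 < -Real.log r / 2 := by
      have := Real.log_neg hr hr1
      linarith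
    exact h1.comp_continuous (by fun_prop) fun x => by simpa using hl
  obtain ⟨z, hz, hzm⟩ := (isCompact_Icc (a := x2 / 2) (b := x2)).exists_isMinOn
    ⟨x2, by constructor <;> linarith⟩ (f := fun x : ℝ => ‖ch c x‖) hcont.norm.continuousOn
  have hm0 : 0 < ‖ch c z‖ := by
    rw [norm_pos_iff]
    exact hch z (by linarith [hz.1]) (hz.2.trans (min_le_left _ _))
  set m0 := ‖ch c z‖ with hm0d
  -- uniform convergence
  have hu : TendstoUniformly (fun (t : Finset ℤ) (x : ℝ) => ∑ j ∈ t, (c j : ℂ) * cexp (I * j * x))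
      (fun x : ℝ => ∑' j : ℤ, (c j : ℂ) * cexp (I * j * x)) atTop := by
    refine tendstoUniformly_tsum (u := fun j : ℤ => K * r ^ j.natAbs)
      ((sum_geo hr.le hr1).mul_left K) fun j x => ?_
    rw [norm_mul, Complex.norm_real, Real.norm_eq_abs, Complex.norm_exp]
    have e1 : (I * (j : ℂ) * (x : ℂ)).re = 0 := by simp [Complex.mul_re, Complex.mul_im]
    rw [e1, Real.exp_zero, mul_one]
    exact hc j
  have hu2 := (Metric.tendstoUniformly_iff.1 hu) (m0 / 2) (by positivity)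
  have hIcc : Tendsto (fun J : ℕ => Icc (-(J : ℤ)) J) atTop atTop :=
    (Finset.tendsto_Icc_neg (R := ℤ)).comp tendsto_natCast_atTop_atTop
  have hu3 := hIcc.eventually hu2
  obtain ⟨J0, hJ0⟩ := eventually_atTop.1 hu3
  refine ⟨(m0 / 2) ^ 2 * σ.real (Set.Ioc (x2 / 2) x2), J0, by positivity, fun J hJ => ?_⟩
  -- spectral representation of the centred filter
  have hsp := spec_sum hs hM1 hσ (Icc (-(J : ℤ)) J) c c
  have hYc : ∀ q, (∑ k ∈ Icc (-(J : ℤ)) J, c k * (q k - 1)) * (∑ k ∈ Icc (-(J : ℤ)) J, c k * (q k - 1)) =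
      YJ c J q ^ 2 - 2 * (∑ k ∈ Icc (-(J : ℤ)) J, c k) * YJ c J q + (∑ k ∈ Icc (-(J : ℤ)) J, c k) ^ 2 := by
    intro q
    unfold YJ
    have : ∑ k ∈ Icc (-(J : ℤ)) J, c k * (q k - 1) =
        ∑ k ∈ Icc (-(J : ℤ)) J, c k * q k - ∑ k ∈ Icc (-(J : ℤ)) J, c k := by
      rw [← Finset.sum_sub_distrib]
      exact Finset.sum_congr rfl fun k _ => by ring
    rw [this]
    ring
  set s0 := ∑ k ∈ Icc (-(J : ℤ)) J, c k with hs0
  have iY := (YJ_PG c J).integrable hP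
  have iY2 := ((YJ_PG c J).pow 2).integrable hP
  have hEY : ∫ q, YJ c J q ∂(P : Measure (ℤ → ℝ)) = s0 := by
    unfold YJ
    rw [integral_finsetSum _ fun k _ => ((PG.const (c k)).mul (PG.coord k)).integrable hP]
    rw [hs0]
    refine Finset.sum_congr rfl fun k _ => ?_
    rw [integral_const_mul, mean_P hP k, mul_one]
  simp only [hYc] at hsp
  have hspl : ∫ q, (YJ c J q ^ 2 - 2 * s0 * YJ c J q + s0 ^ 2) ∂(P : Measure (ℤ → ℝ)) =
      ∫ q, YJ c J q ^ 2 ∂(P : Measure (ℤ → ℝ)) - s0 ^ 2 := by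
    have e1 : ∫ q, (YJ c J q ^ 2 - 2 * s0 * YJ c J q + s0 ^ 2) ∂(P : Measure (ℤ → ℝ)) =
        ∫ q, (YJ c J q ^ 2 - 2 * s0 * YJ c J q) ∂(P : Measure (ℤ → ℝ)) + ∫ _q, s0 ^ 2 ∂(P : Measure (ℤ → ℝ)) :=
      integral_add (iY2.sub (iY.const_mul (2 * s0))) (integrable_const _)
    have e2 : ∫ q, (YJ c J q ^ 2 - 2 * s0 * YJ c J q) ∂(P : Measure (ℤ → ℝ)) =
        ∫ q, YJ c J q ^ 2 ∂(P : Measure (ℤ → ℝ)) - ∫ q, 2 * s0 * YJ c J q ∂(P : Measure (ℤ → ℝ)) :=
      integral_sub iY2 (iY.const_mul (2 * s0))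
    rw [e1, e2, integral_const_mul, hEY, integral_const, probReal_univ, one_smul]
    ring
  rw [hspl] at hsp
  have h6 : ∀ x : ℝ, (m0 / 2) ^ 2 * (Set.Ioc (x2 / 2) x2).indicator (fun _ => (1 : ℝ)) x ≤
      ((∑ k ∈ Icc (-(J : ℤ)) J, (c k : ℂ) * cexp (((k : ℝ) * x : ℝ) * I)) *
        conj (∑ k ∈ Icc (-(J : ℤ)) J, (c k : ℂ) * cexp (((k : ℝ) * x : ℝ) * I))).re := by
    intro x
    have e1 : ∑ k ∈ Icc (-(J : ℤ)) J, (c k : ℂ) * cexp (((k : ℝ) * x : ℝ) * I) =
        ∑ k ∈ Icc (-(J : ℤ)) J, (c k : ℂ) * cexp (I * k * x) := by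
      refine Finset.sum_congr rfl fun k _ => ?_
      congr 2
      push_cast
      ring
    rw [e1, Complex.mul_conj, Complex.ofReal_re, Complex.normSq_eq_norm_sq]
    by_cases hx : x ∈ Set.Ioc (x2 / 2) x2
    · rw [Set.indicator_of_mem hx, mul_one]
      have h7 := hJ0 J hJ x
      rw [dist_eq_norm] at h7
      have h8 : m0 ≤ ‖ch c x‖ := hzm (Set.mem_Icc.2 ⟨hx.1.le, hx.2⟩)
      have h9 : ‖ch c x‖ - ‖∑ k ∈ Icc (-(J : ℤ)) J, (c k : ℂ) * cexp (I * k * x)‖ ≤ m0 / 2 := by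
        refine (norm_sub_norm_le _ _).trans ?_
        exact h7.le
      exact pow_le_pow_left₀ (by positivity) (by linarith) 2
    · rw [Set.indicator_of_notMem hx, mul_zero]
      positivity
  have h7 : (m0 / 2) ^ 2 * σ.real (Set.Ioc (x2 / 2) x2) ≤
      ∫ x, ((∑ k ∈ Icc (-(J : ℤ)) J, (c k : ℂ) * cexp (((k : ℝ) * x : ℝ) * I)) *
        conj (∑ k ∈ Icc (-(J : ℤ)) J, (c k : ℂ) * cexp (((k : ℝ) * x : ℝ) * I))).re ∂σ := by
    have e : σ.real (Set.Ioc (x2 / 2) x2) = ∫ x, (Set.Ioc (x2 / 2) x2).indicator (fun _ => (1 : ℝ)) x ∂σ := by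
      rw [integral_indicator measurableSet_Ioc, setIntegral_const, smul_eq_mul, mul_one]
    rw [e, ← integral_const_mul]
    refine integral_mono (((integrable_const (1 : ℝ)).indicator measurableSet_Ioc).const_mul _) ?_ h6
    refine spec_integrable hσ ?_
    refine Complex.continuous_re.comp (Continuous.mul ?_ (Complex.continuous_conj.comp ?_)) <;> fun_prop
  rw [← hsp] at h7
  nlinarith [sq_nonneg s0]

/-- **the truncated filters do not tend to zero in probability** -/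
theorem low_P (hr : 0 < r) (hr1 : r < 1) (hc : ∀ j, |c j| ≤ K * r ^ j.natAbs) (hne : ∃ j, c j ≠ 0)
    {P : ProbabilityMeasure (ℤ → ℝ)} (hP : IsLim (seen dl) P) :
    ∃ (v : ℝ) (J0 : ℕ), 0 < v ∧ ∀ J ≥ J0, v ≤ ∫ q, min 1 |YJ c J q| ∂(P : Measure (ℤ → ℝ)) := by
  obtain ⟨v, J0, hv, h1⟩ := var_low hr hr1 hc hne hP
  obtain ⟨D, hD, h2⟩ := four_P hr hr1 hc hP
  set M := 1 + 2 * D / v with hM
  have hM1 : 1 ≤ M := by
    have : 0 ≤ 2 * D / v := by positivity
    linarith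
  have hM0 : 0 < M := by linarith
  refine ⟨v / (2 * M), J0, by positivity, fun J hJ => ?_⟩
  have hpt : ∀ y : ℝ, y ^ 2 ≤ M * min 1 |y| + y ^ 4 / M := by
    intro y
    have hy4 : 0 ≤ y ^ 4 / M := by positivity
    rcases le_or_gt |y| 1 with h | h
    · rw [min_eq_right h]
      have : y ^ 2 ≤ |y| := by
        rw [← sq_abs]
        nlinarith [abs_nonneg y]
      nlinarith [abs_nonneg y]
    · rw [min_eq_left h.le]
      rcases le_or_gt (y ^ 2) M with h3 | h3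
      · linarith
      · have : y ^ 2 ≤ y ^ 4 / M := by
          rw [le_div_iff₀ hM0]
          nlinarith [sq_nonneg y]
        linarith
  have iY2 := ((YJ_PG c J).pow 2).integrable hP
  have iY4 := ((YJ_PG c J).pow 4).integrable hP
  have iYm : Integrable (fun q => min 1 |YJ c J q|) (P : Measure (ℤ → ℝ)) := by
    refine Integrable.of_bound (continuous_const.min (YJ_PG c J).cont.abs).aestronglyMeasurable 1
      (Eventually.of_forall fun q => ?_)
    rw [Real.norm_of_nonneg (le_min zero_le_one (abs_nonneg _))]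
    exact min_le_left _ _
  have h3 : ∫ q, YJ c J q ^ 2 ∂(P : Measure (ℤ → ℝ)) ≤
      ∫ q, (M * min 1 |YJ c J q| + YJ c J q ^ 4 / M) ∂(P : Measure (ℤ → ℝ)) :=
    integral_mono iY2 ((iYm.const_mul M).add (iY4.div_const M)) fun q => hpt _
  rw [integral_add (iYm.const_mul M) (iY4.div_const M), integral_const_mul, integral_div] at h3
  have h4 := h1 J hJ
  have h5 : (∫ q, YJ c J q ^ 4 ∂(P : Measure (ℤ → ℝ))) / M ≤ v / 2 := by
    rw [div_le_iff₀ hM0]
    have : v / 2 * M = v / 2 + D := by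
      rw [hM]
      field_simp
    rw [this]
    linarith [h2 J]
  rw [div_le_iff₀ (by positivity)]
  linarith

end Pool.Agent.Q172.LI
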