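import Pool.Agent.Q172.LI.B

/-!
# Linear forms in the ordinates and filters of the gaps (helper172)
-/

set_option autoImplicit false

namespace Pool.Agent.Q172.LI

open Finset MeasureTheory Filter Topology
open Pool.Agent.Q278.GF Pool.Agent.Q278.MC Pool.Agent.Q278.KM
open Pool.Agent.Q172.PS
open _root_.Q172.ZetaLim (IsLim seen map_shift shift)

/-- the ordinates, extended by zero -/
noncomputable def oz (m : ℤ) : ℝ := if 1 ≤ m then SG.ord m.toNat else 0

/-- a linear form of infinite length in the ordinates around the `n`-th one -/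
noncomputable def LF (c : ℤ → ℝ) (n : ℕ) : ℝ := ∑' j : ℤ, c j * oz (n + j)

/-- the density of the zeros at the `n`-th ordinate -/
noncomputable def La (n : ℕ) : ℝ := Real.log (SG.ord n / (2 * Real.pi)) / (2 * Real.pi)

lemma oz_nonneg (m : ℤ) : 0 ≤ oz m := by
  unfold oz
  split_ifs with h
  · exact (SG.ord_pos (by omega)).le
  · exact le_rfl

lemma oz_mono {a b : ℤ} (h : a ≤ b) : oz a ≤ oz b := by
  by_cases ha : 1 ≤ a
  · unfold oz
    rw [if_pos ha, if_pos (ha.trans h)]
    exact SG.ord_mono (by omega) (by omega)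
  · have : oz a = 0 := by unfold oz; rw [if_neg ha]
    rw [this]
    exact oz_nonneg b

lemma oz_nat {m : ℕ} (hm : 1 ≤ m) : oz m = SG.ord m := by
  unfold oz
  rw [if_pos (by exact_mod_cast hm), Int.toNat_natCast]

/-- from eventually to always -/
lemma all_of_ev {f : ℕ → ℝ} {C : ℝ} (h : ∀ᶠ m : ℕ in atTop, f m ≤ C * m) :
    ∃ C' : ℝ, 0 < C' ∧ ∀ m : ℕ, 1 ≤ m → f m ≤ C' * m := by
  obtain ⟨m0, hm0⟩ := eventually_atTop.1 h
  refine ⟨|C| + ∑ i ∈ range m0, |f i| + 1, by positivity, fun m hm => ?_⟩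
  have hm1 : (1 : ℝ) ≤ m := by exact_mod_cast hm
  have hS : 0 ≤ ∑ i ∈ range m0, |f i| := Finset.sum_nonneg fun _ _ => abs_nonneg _
  rcases le_or_gt m0 m with hc | hc
  · have h1 := hm0 m hc
    have h2 : C * m ≤ |C| * m := mul_le_mul_of_nonneg_right (le_abs_self C) (by linarith)
    nlinarith
  · have h1 : |f m| ≤ ∑ i ∈ range m0, |f i| :=
      Finset.single_le_sum (f := fun i => |f i|) (fun _ _ => abs_nonneg _) (Finset.mem_range.2 hc)
    have h2 := le_abs_self (f m)
    nlinarith [abs_nonneg C]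

lemma ord_sc : ∃ C : ℝ, 0 < C ∧ ∀ m : ℕ, 1 ≤ m → SG.ord m ≤ C * m ∧ SG.ord m * sc (SG.ord m) ≤ C * m := by
  obtain ⟨C1, hC1, h1⟩ := all_of_ev NZ_low8
  have h2 : ∀ᶠ m : ℕ in atTop, SG.ord m ≤ 8 * m := by
    filter_upwards [NZ_low8, SG.ord_tendsto.eventually_ge_atTop (Real.exp (2 * Real.pi))] with m a1 a2
    refine le_trans ?_ a1
    have h3 : 1 ≤ sc (SG.ord m) := by
      unfold sc
      rw [le_div_iff₀ (by positivity), one_mul]
      rw [← Real.log_exp (2 * Real.pi)]
      exact Real.log_le_log (Real.exp_pos _) a2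
    have h4 : 0 ≤ SG.ord m := (Real.exp_pos _).le.trans a2
    nlinarith
  obtain ⟨C2, hC2, h3⟩ := all_of_ev h2
  refine ⟨C1 + C2, by positivity, fun m hm => ⟨?_, ?_⟩⟩
  · have := h3 m hm
    have h0 : (0 : ℝ) ≤ m := Nat.cast_nonneg m
    nlinarith
  · have := h1 m hm
    have h0 : (0 : ℝ) ≤ m := Nat.cast_nonneg m
    nlinarith

lemma oz_lin : ∃ C : ℝ, 0 < C ∧ ∀ (n : ℕ) (j : ℤ), oz (n + j) ≤ C * ((n : ℝ) + j.natAbs) := by
  obtain ⟨C, hC, h⟩ := ord_sc
  refine ⟨C, hC, fun n j => ?_⟩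
  unfold oz
  split_ifs with h1
  · refine (h _ (by omega)).1.trans (mul_le_mul_of_nonneg_left ?_ hC.le)
    have : ((n : ℤ) + j).toNat ≤ n + j.natAbs := by omega
    exact_mod_cast this
  · positivity

lemma oz_summable {c : ℤ → ℝ} {K r : ℝ} (hr : 0 < r) (hr1 : r < 1) (hc : ∀ j, |c j| ≤ K * r ^ j.natAbs)
    (n : ℕ) : Summable fun j : ℤ => c j * oz (n + j) := by
  have hK : 0 ≤ K := by
    have := (abs_nonneg _).trans (hc 0)
    simpa using this
  obtain ⟨C, hC, h⟩ := oz_lin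
  refine Summable.of_norm_bounded (g := fun j : ℤ => (K * C * ((n : ℝ) + 1)) * (r ^ j.natAbs * (2 + (j.natAbs : ℝ))))
    ((sum_geo' hr.le hr1).mul_left _) fun j => ?_
  rw [norm_mul, Real.norm_eq_abs, Real.norm_of_nonneg (oz_nonneg _)]
  have h1 : C * ((n : ℝ) + j.natAbs) ≤ C * (((n : ℝ) + 1) * (2 + (j.natAbs : ℝ))) := by
    refine mul_le_mul_of_nonneg_left ?_ hC.le
    have : (0 : ℝ) ≤ n := Nat.cast_nonneg n
    have : (0 : ℝ) ≤ (j.natAbs : ℝ) := Nat.cast_nonneg _
    nlinarith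
  calc |c j| * oz (n + j) ≤ (K * r ^ j.natAbs) * (C * (((n : ℝ) + 1) * (2 + (j.natAbs : ℝ)))) :=
        mul_le_mul (hc j) ((h n j).trans h1) (oz_nonneg _) (by positivity)
    _ = _ := by ring

/-- the density changes slowly -/
lemma La_step : ∃ n1 : ℕ, 1 ≤ n1 ∧ ∀ n ≥ n1, 2 * Real.pi ≤ SG.ord n ∧ La n ≤ La (n + 1) ∧
    La (n + 1) ≤ La n + 1 := by
  obtain ⟨T0, hT0, h⟩ := LG.CU.ord_succ_le
  obtain ⟨n1, hn1⟩ := eventually_atTop.1 (SG.ord_tendsto.eventually_ge_atTop T0)
  refine ⟨max n1 1, le_max_right _ _, fun n hn => ?_⟩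
  have hn0 : 1 ≤ n := (le_max_right _ _).trans hn
  have h1 := hn1 n ((le_max_left _ _).trans hn)
  have h2 := h n hn0 h1
  have h3 := SG.ord_mono hn0 (Nat.le_succ n)
  rw [Nat.succ_eq_add_one] at h3
  have hpi := Real.pi_gt_three
  have hpi2 := Real.pi_lt_d2
  have h0 : 0 < SG.ord n := by linarith
  have h0' : 0 < SG.ord (n + 1) := by linarith
  refine ⟨by linarith, ?_, ?_⟩
  · unfold La
    refine div_le_div_of_nonneg_right (Real.log_le_log (by positivity) ?_) (by positivity)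
    exact div_le_div_of_nonneg_right h3 (by positivity)
  · unfold La
    rw [div_add_one (by positivity)]
    refine div_le_div_of_nonneg_right ?_ (by positivity)
    have h4 : Real.log (SG.ord (n + 1) / (2 * Real.pi)) ≤ Real.log (2 * (SG.ord n / (2 * Real.pi))) := by
      refine Real.log_le_log (by positivity) ?_
      rw [mul_div_assoc']
      exact div_le_div_of_nonneg_right h2 (by positivity)
    rw [Real.log_mul (by norm_num) (by positivity)] at h4
    have h5 : Real.log 2 < 1 := by linarith [Real.log_two_lt_d9]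
    linarith

lemma La_tendsto : Tendsto La atTop atTop := by
  unfold La
  have h1 : Tendsto (fun n => SG.ord n / (2 * Real.pi)) atTop atTop :=
    SG.ord_tendsto.atTop_div_const (by positivity)
  exact (Real.tendsto_log_atTop.comp h1).atTop_div_const (by positivity)

lemma La_le_sc {n : ℕ} (h : 2 * Real.pi ≤ SG.ord n) : 0 ≤ La n ∧ La n ≤ sc (SG.ord n) := by
  have hpi := Real.pi_gt_three
  have h0 : 0 < SG.ord n := by linarith
  unfold La sc
  constructor
  · refine div_nonneg (Real.log_nonneg ?_) (by positivity)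
    rw [le_div_iff₀ (by positivity)]
    linarith
  · refine div_le_div_of_nonneg_right (Real.log_le_log (by positivity) ?_) (by positivity)
    exact div_le_self h0.le (by linarith)

/-- unfolded gaps and rescaled gaps -/
lemma gap_cmp (J : ℕ) {η : ℝ} (hη : 0 < η) : ∃ n0 : ℕ, ∀ n ≥ n0, ∀ j ∈ Icc (-(J : ℤ)) J,
    |La n * (oz (n + 1 + j) - oz (n + j)) - seen dl n j| ≤ η * |seen dl n j| := by
  obtain ⟨n1, hn1, h1⟩ := La_step
  obtain ⟨n2, hn2⟩ := eventually_atTop.1 (La_tendsto.eventually_ge_atTop (J / η))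
  refine ⟨n1 + n2 + J, fun n hn j hj => ?_⟩
  rw [Finset.mem_Icc] at hj
  obtain ⟨m, hm⟩ : ∃ m : ℕ, (m : ℤ) = n + j := ⟨(n + j).toNat, by omega⟩
  have hmn : n1 ≤ m ∧ n2 ≤ m := by omega
  have hm1 : 1 ≤ m := hn1.trans hmn.1
  have hmono : ∀ a ≥ n1, ∀ k : ℕ, La a ≤ La (a + k) ∧ La (a + k) ≤ La a + k := by
    intro a ha k
    induction k with
    | zero => simp
    | succ k ih =>
      obtain ⟨_, b2, b3⟩ := h1 (a + k) (by omega)
      rw [← add_assoc]
      push_cast
      constructor <;> linarith [ih.1, ih.2]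
  have hdiff : |La n - La m| ≤ J := by
    rcases le_total n m with hnm | hnm
    · obtain ⟨k, rfl⟩ := Nat.exists_eq_add_of_le hnm
      have h2 := hmono n (by omega) k
      have h3 : (k : ℝ) ≤ J := by exact_mod_cast (by omega : k ≤ J)
      rw [abs_le]; constructor <;> linarith
    · obtain ⟨k, rfl⟩ := Nat.exists_eq_add_of_le hnm
      have h2 := hmono m hmn.1 k
      have h3 : (k : ℝ) ≤ J := by exact_mod_cast (by omega : k ≤ J)
      rw [abs_le]; constructor <;> linarith
  have hJ : (J : ℝ) ≤ η * La m := by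
    have := hn2 m hmn.2
    rw [div_le_iff₀ hη] at this
    linarith
  have e1 : oz (n + 1 + j) - oz (n + j) = SG.ord (m + 1) - SG.ord m := by
    rw [show (n : ℤ) + 1 + j = ((m + 1 : ℕ) : ℤ) by push_cast; omega, ← hm, oz_nat (by omega), oz_nat hm1]
  have e2 : seen dl n j = (SG.ord (m + 1) - SG.ord m) * La m := by
    unfold seen
    rw [← hm, if_pos (by exact_mod_cast hm1), Int.toNat_natCast]
    unfold dl La
    ring
  rw [e1, e2]
  have hg : 0 ≤ SG.ord (m + 1) - SG.ord m := by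
    have := SG.ord_mono hm1 (Nat.le_succ m)
    rw [Nat.succ_eq_add_one] at this
    linarith
  have hLm := (La_le_sc (h1 m hmn.1).1).1
  have e3 : La n * (SG.ord (m + 1) - SG.ord m) - (SG.ord (m + 1) - SG.ord m) * La m =
      (SG.ord (m + 1) - SG.ord m) * (La n - La m) := by ring
  rw [e3, abs_mul, abs_mul, abs_of_nonneg hg, abs_of_nonneg hLm]
  have := mul_le_mul_of_nonneg_left (hdiff.trans hJ) hg
  linarith

end Pool.Agent.Q172.LI
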