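import Pool.Agent.Q172.LI.C

/-!
# If a linear form in the ordinates is almost constant, a filter of the gaps is small (helper172)
-/

set_option autoImplicit false

namespace Pool.Agent.Q172.LI

open Finset MeasureTheory Filter Topology
open Pool.Agent.Q278.GF Pool.Agent.Q278.MC Pool.Agent.Q278.KM
open Pool.Agent.Q172.PS
open _root_.Q172.ZetaLim (IsLim seen map_shift shift)

/-- tails of a summable series -/
lemma tail_eq {g : ℤ → ℝ} (hg : Summable g) (S : Finset ℤ) :
    ∑' j : ℤ, (if j ∈ S then 0 else g j) = ∑' j, g j - ∑ j ∈ S, g j ∧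
      Summable fun j : ℤ => if j ∈ S then 0 else g j := by
  have h1 : HasSum (fun j : ℤ => if j ∈ S then g j else 0) (∑ j ∈ S, g j) := by
    have h2 : HasSum (fun j : ℤ => if j ∈ S then g j else 0) (∑ j ∈ S, (if j ∈ S then g j else 0)) :=
      hasSum_sum_of_ne_finset_zero fun b hb => if_neg hb
    have h3 : ∑ j ∈ S, (if j ∈ S then g j else 0) = ∑ j ∈ S, g j :=
      Finset.sum_congr rfl fun j hj => if_pos hj
    rwa [h3] at h2
  have h2 := hg.hasSum.sub h1
  have e : (fun j : ℤ => g j - if j ∈ S then g j else 0) = fun j : ℤ => if j ∈ S then 0 else g j := by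
    funext j
    split_ifs <;> ring
  rw [e] at h2
  exact ⟨h2.tsum_eq, h2.summable⟩

/-- the filter of the unfolded gaps and the increments of the linear form -/
lemma filter_le {c : ℤ → ℝ} {K r : ℝ} (hr : 0 < r) (hr1 : r < 1) (hc : ∀ j, |c j| ≤ K * r ^ j.natAbs)
    (J : ℕ) {η : ℝ} (n : ℕ) (hL : 0 ≤ La n) (h : ∀ j ∈ Icc (-(J : ℤ)) J,
      |La n * (oz (n + 1 + j) - oz (n + j)) - seen dl n j| ≤ η * |seen dl n j|) :
    |YJ c J (seen dl n)| ≤ La n * |LF c (n + 1) - LF c n| +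
      η * ∑ j ∈ Icc (-(J : ℤ)) J, K * r ^ j.natAbs * |seen dl n j| +
      La n * ∑' j : ℤ, (if j ∈ Icc (-(J : ℤ)) J then 0 else K * r ^ j.natAbs) * (oz (n + 1 + j) - oz (n + j)) := by
  have hK : 0 ≤ K := by
    have := (abs_nonneg _).trans (hc 0)
    simpa using this
  have s1 := oz_summable hr hr1 hc (n + 1)
  have s0 := oz_summable hr hr1 hc n
  have e0 : ∀ j : ℤ, ((n + 1 : ℕ) : ℤ) + j = (n : ℤ) + 1 + j := fun j => by push_cast; ring
  simp only [e0] at s1
  have sd : Summable fun j : ℤ => c j * (oz (n + 1 + j) - oz (n + j)) := by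
    refine (s1.sub s0).congr fun j => by ring
  have hg : ∀ j : ℤ, 0 ≤ oz (n + 1 + j) - oz (n + j) := fun j => by
    have := oz_mono (show (n : ℤ) + j ≤ n + 1 + j by omega)
    linarith
  have hD : LF c (n + 1) - LF c n = ∑' j : ℤ, c j * (oz (n + 1 + j) - oz (n + j)) := by
    unfold LF
    simp only [e0]
    rw [← s1.tsum_sub s0]
    exact tsum_congr fun j => by ring
  obtain ⟨t1, t2⟩ := tail_eq sd (Icc (-(J : ℤ)) J)
  have hw : Summable fun j : ℤ => K * r ^ j.natAbs * (oz (n + 1 + j) - oz (n + j)) := by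
    have hcK : ∀ j : ℤ, |K * r ^ j.natAbs| ≤ K * r ^ j.natAbs := fun j =>
      (abs_of_nonneg (by positivity)).le
    have w1 := oz_summable hr hr1 hcK (n + 1)
    have w0 := oz_summable hr hr1 hcK n
    simp only [e0] at w1
    exact (w1.sub w0).congr fun j => by ring
  obtain ⟨t3, t4⟩ := tail_eq hw (Icc (-(J : ℤ)) J)
  have hY : YJ c J (seen dl n) = La n * (LF c (n + 1) - LF c n) -
      ∑ j ∈ Icc (-(J : ℤ)) J, c j * (La n * (oz (n + 1 + j) - oz (n + j)) - seen dl n j) -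
      La n * ∑' j : ℤ, (if j ∈ Icc (-(J : ℤ)) J then 0 else c j * (oz (n + 1 + j) - oz (n + j))) := by
    rw [t1, ← hD]
    unfold YJ
    have : ∑ j ∈ Icc (-(J : ℤ)) J, c j * (La n * (oz (n + 1 + j) - oz (n + j)) - seen dl n j) =
        La n * ∑ j ∈ Icc (-(J : ℤ)) J, c j * (oz (n + 1 + j) - oz (n + j)) -
          ∑ j ∈ Icc (-(J : ℤ)) J, c j * seen dl n j := by
      rw [Finset.mul_sum, ← Finset.sum_sub_distrib]
      exact Finset.sum_congr rfl fun j _ => by ring
    rw [this]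
    ring
  rw [hY]
  have b1 : |∑ j ∈ Icc (-(J : ℤ)) J, c j * (La n * (oz (n + 1 + j) - oz (n + j)) - seen dl n j)| ≤
      η * ∑ j ∈ Icc (-(J : ℤ)) J, K * r ^ j.natAbs * |seen dl n j| := by
    refine (Finset.abs_sum_le_sum_abs _ _).trans ?_
    rw [Finset.mul_sum]
    refine Finset.sum_le_sum fun j hj => ?_
    rw [abs_mul]
    calc |c j| * |La n * (oz (n + 1 + j) - oz (n + j)) - seen dl n j|
        ≤ (K * r ^ j.natAbs) * (η * |seen dl n j|) :=
          mul_le_mul (hc j) (h j hj) (abs_nonneg _) (by positivity)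
      _ = _ := by ring
  have b2 : |∑' j : ℤ, (if j ∈ Icc (-(J : ℤ)) J then 0 else c j * (oz (n + 1 + j) - oz (n + j)))| ≤
      ∑' j : ℤ, (if j ∈ Icc (-(J : ℤ)) J then 0 else K * r ^ j.natAbs) * (oz (n + 1 + j) - oz (n + j)) := by
    have e : ∀ j : ℤ, (if j ∈ Icc (-(J : ℤ)) J then 0 else K * r ^ j.natAbs) * (oz (n + 1 + j) - oz (n + j)) =
        if j ∈ Icc (-(J : ℤ)) J then 0 else K * r ^ j.natAbs * (oz (n + 1 + j) - oz (n + j)) := by
      intro j
      split_ifs <;> ring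
    simp only [e]
    have h1 : ∀ j : ℤ, ‖(if j ∈ Icc (-(J : ℤ)) J then 0 else c j * (oz (n + 1 + j) - oz (n + j)))‖ ≤
        if j ∈ Icc (-(J : ℤ)) J then 0 else K * r ^ j.natAbs * (oz (n + 1 + j) - oz (n + j)) := by
      intro j
      split_ifs
      · rw [norm_zero]
      · rw [norm_mul, Real.norm_eq_abs, Real.norm_of_nonneg (hg j)]
        exact mul_le_mul_of_nonneg_right (hc j) (hg j)
    rw [← Real.norm_eq_abs]
    exact tsum_of_norm_bounded t4.hasSum h1
  refine (abs_sub _ _).trans (add_le_add ((abs_sub _ _).trans (add_le_add ?_ b1)) ?_)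
  · rw [abs_mul, abs_of_nonneg hL]
  · rw [abs_mul, abs_of_nonneg hL]
    exact mul_le_mul_of_nonneg_left b2 hL

/-- telescoping -/
lemma gap_sum : ∃ C : ℝ, 0 < C ∧ ∃ n1 : ℕ, 1 ≤ n1 ∧ ∀ n0 ≥ n1, ∀ (N : ℕ), 1 ≤ N → ∀ (j : ℤ),
    ∑ n ∈ Icc n0 N, La n * (oz (n + 1 + j) - oz (n + j)) ≤ C * (2 + (j.natAbs : ℝ)) * N := by
  obtain ⟨C, hC, h⟩ := ord_sc
  obtain ⟨n1, hn1, h1⟩ := La_step
  have hmono : ∀ a ≥ n1, ∀ k : ℕ, La a ≤ La (a + k) := by
    intro a ha k
    induction k with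
    | zero => simp
    | succ k ih =>
      obtain ⟨_, b2, b3⟩ := h1 (a + k) (by omega)
      rw [← add_assoc]
      linarith
  refine ⟨C, hC, n1, hn1, fun n0 hn0 N hN j => ?_⟩
  have hN1 : (1 : ℝ) ≤ N := by exact_mod_cast hN
  rcases lt_or_ge N n0 with hlt | hge
  · rw [Finset.Icc_eq_empty (by omega), Finset.sum_empty]
    positivity
  have hg : ∀ n : ℕ, 0 ≤ oz (n + 1 + j) - oz (n + j) := fun n => by
    have := oz_mono (show (n : ℤ) + j ≤ n + 1 + j by omega)
    linarith
  have s1 : ∑ n ∈ Icc n0 N, La n * (oz (n + 1 + j) - oz (n + j)) ≤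
      La N * ∑ n ∈ Icc n0 N, (oz (n + 1 + j) - oz (n + j)) := by
    rw [Finset.mul_sum]
    refine Finset.sum_le_sum fun n hn => ?_
    rw [Finset.mem_Icc] at hn
    refine mul_le_mul_of_nonneg_right ?_ (hg n)
    obtain ⟨k, hk⟩ := Nat.exists_eq_add_of_le hn.2
    rw [hk]
    exact hmono n (by omega) k
  have s2 : ∑ n ∈ Icc n0 N, (oz (n + 1 + j) - oz (n + j)) = oz (N + 1 + j) - oz (n0 + j) := by
    have e1 : Icc n0 N = Ico n0 (N + 1) := by
      ext n; rw [Finset.mem_Icc, Finset.mem_Ico]; omega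
    have e2 := Finset.sum_Ico_sub (fun n : ℕ => oz ((n : ℤ) + j)) (show n0 ≤ N + 1 by omega)
    rw [e1]
    push_cast at e2
    exact e2
  rw [s2] at s1
  refine s1.trans ?_
  obtain ⟨hL0, hL1⟩ := La_le_sc (h1 N (by omega)).1
  have h3 : oz (N + 1 + j) - oz (n0 + j) ≤ SG.ord (N + 1 + j.natAbs) := by
    have h4 : oz (N + 1 + j) ≤ oz ((N + 1 + j.natAbs : ℕ) : ℤ) := oz_mono (by omega)
    rw [oz_nat (by omega)] at h4
    linarith [oz_nonneg (n0 + j)]
  have h5 : sc (SG.ord N) ≤ sc (SG.ord (N + 1 + j.natAbs)) := by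
    unfold sc
    refine div_le_div_of_nonneg_right (Real.log_le_log (SG.ord_pos (by omega)) ?_) (by positivity)
    exact SG.ord_mono (by omega) (by omega)
  calc La N * (oz (N + 1 + j) - oz (n0 + j))
      ≤ sc (SG.ord (N + 1 + j.natAbs)) * SG.ord (N + 1 + j.natAbs) :=
        mul_le_mul (hL1.trans h5) h3 (by
          have := oz_mono (show (n0 : ℤ) + j ≤ N + 1 + j by omega)
          linarith) (hL0.trans (hL1.trans h5))
    _ ≤ C * ((N + 1 + j.natAbs : ℕ) : ℝ) := by
        rw [mul_comm]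
        exact (h _ (by omega)).2
    _ ≤ C * (2 + (j.natAbs : ℝ)) * N := by
        rw [mul_assoc]
        refine mul_le_mul_of_nonneg_left ?_ hC.le
        push_cast
        have : (0 : ℝ) ≤ (j.natAbs : ℝ) := Nat.cast_nonneg _
        nlinarith

/-- **if a linear form in the ordinates is almost constant, the filter of the gaps is small** -/
theorem main_C {K r : ℝ} (hK : 0 ≤ K) (hr : 0 < r) (hr1 : r < 1) : ∃ ρ : ℕ → ℝ,
    Tendsto ρ atTop (𝓝 0) ∧ ∀ (J : ℕ) (η : ℝ), 0 < η → ∃ n0 : ℕ, ∀ (c : ℤ → ℝ) (b ε : ℝ),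
      (∀ j, |c j| ≤ K * r ^ j.natAbs) → 0 < ε → ∀ N : ℕ, 1 ≤ N →
        ∑ n ∈ Icc 1 N, min 1 |YJ c J (seen dl n)| ≤ (ε + η + ρ J) * N +
          2 * ((Icc 1 N).filter fun n => ε / Real.log (SG.ord n) ≤ |LF c n - b|).card + n0 := by
  classical
  obtain ⟨C1, hC1, n1, hn1, hgs⟩ := gap_sum
  obtain ⟨C2, hC2, hss⟩ := seen_sum 0
  set g : ℤ → ℝ := fun j => (K * C1) * (r ^ j.natAbs * (2 + (j.natAbs : ℝ))) with hg
  have hgsum : Summable g := (sum_geo' hr.le hr1).mul_left _
  have hg0 : ∀ j, 0 ≤ g j := fun j => by rw [hg]; positivity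
  refine ⟨fun J => ∑' j, g j - ∑ j ∈ Icc (-(J : ℤ)) J, g j, ?_, fun J η hη => ?_⟩
  · have hIcc : Tendsto (fun J : ℕ => Icc (-(J : ℤ)) J) atTop atTop :=
      (Finset.tendsto_Icc_neg (R := ℤ)).comp tendsto_natCast_atTop_atTop
    have h1 : Tendsto (fun J : ℕ => ∑ j ∈ Icc (-(J : ℤ)) J, g j) atTop (𝓝 (∑' j, g j)) :=
      hgsum.hasSum.comp hIcc
    have h2 := (tendsto_const_nhds (x := ∑' j, g j)).sub h1
    rwa [sub_self] at h2
  -- the constant of the bulk error
  set A : ℝ := ∑ j ∈ Icc (-(J : ℤ)) J, K * r ^ j.natAbs * (C2 * (1 + (j.natAbs : ℝ))) with hA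
  have hA0 : 0 ≤ A := Finset.sum_nonneg fun j _ => by positivity
  set η' := η / (A + 1) with hη'
  have hη'0 : 0 < η' := by positivity
  obtain ⟨n2, hn2⟩ := gap_cmp J hη'0
  obtain ⟨n3, hn3, h3⟩ := La_step
  set n0 := n1 + n2 + n3 + 1 with hn0
  refine ⟨n0 + 2, fun c b ε hc hε N hN => ?_⟩
  have hN1 : (1 : ℝ) ≤ N := by exact_mod_cast hN
  set B := (Icc 1 N).filter fun n => ε / Real.log (SG.ord n) ≤ |LF c n - b| with hB
  set G : ℕ → ℝ := fun n => ∑' j : ℤ, (if j ∈ Icc (-(J : ℤ)) J then 0 else K * r ^ j.natAbs) *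
    (oz (n + 1 + j) - oz (n + j)) with hG
  have hG0 : ∀ n, 0 ≤ G n := by
    intro n
    refine tsum_nonneg fun j => mul_nonneg ?_ ?_
    · split_ifs
      · exact le_rfl
      · positivity
    · have := oz_mono (show (n : ℤ) + j ≤ n + 1 + j by omega)
      linarith
  -- pointwise bound
  have hpt : ∀ n ∈ Icc n0 N, min 1 |YJ c J (seen dl n)| ≤
      (ε + (if n ∈ B then 1 else 0) + (if n + 1 ∈ B then 1 else 0) + (if n = N then 1 else 0)) +
      η' * ∑ j ∈ Icc (-(J : ℤ)) J, K * r ^ j.natAbs * |seen dl n j| + La n * G n := by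
    intro n hn
    rw [Finset.mem_Icc] at hn
    have hord := (h3 n (by omega)).1
    obtain ⟨hL0, hL1⟩ := La_le_sc hord
    have hfl := filter_le hr hr1 hc J (η := η') n hL0 (hn2 n (by omega))
    have p1 : 0 ≤ η' * ∑ j ∈ Icc (-(J : ℤ)) J, K * r ^ j.natAbs * |seen dl n j| :=
      mul_nonneg hη'0.le (Finset.sum_nonneg fun j _ => by positivity)
    have p2 : 0 ≤ La n * G n := mul_nonneg hL0 (hG0 n)
    by_cases hb : n ∈ B ∨ n + 1 ∈ B ∨ n = N
    · have q1 : (1 : ℝ) ≤ (if n ∈ B then 1 else 0) + (if n + 1 ∈ B then 1 else 0) + (if n = N then 1 else 0) := by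
        rcases hb with h | h | h
        · rw [if_pos h]
          split_ifs <;> norm_num
        · rw [if_pos h]
          split_ifs <;> norm_num
        · rw [if_pos h]
          split_ifs <;> norm_num
      have := min_le_left 1 |YJ c J (seen dl n)|
      linarith
    · push Not at hb
      obtain ⟨b1, b2, b3⟩ := hb
      rw [if_neg b1, if_neg b2, if_neg b3]
      have g1 : |LF c n - b| < ε / Real.log (SG.ord n) := by
        by_contra hcon
        push Not at hcon
        exact b1 (Finset.mem_filter.2 ⟨Finset.mem_Icc.2 ⟨by omega, hn.2⟩, hcon⟩)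
      have g2 : |LF c (n + 1) - b| < ε / Real.log (SG.ord (n + 1)) := by
        by_contra hcon
        push Not at hcon
        exact b2 (Finset.mem_filter.2 ⟨Finset.mem_Icc.2 ⟨by omega, by omega⟩, hcon⟩)
      have hpi := Real.pi_gt_three
      have hlog : 0 < Real.log (SG.ord n) := Real.log_pos (by linarith)
      have g3 : ε / Real.log (SG.ord (n + 1)) ≤ ε / Real.log (SG.ord n) := by
        refine div_le_div_of_nonneg_left hε.le hlog (Real.log_le_log (by linarith) ?_)
        exact SG.ord_mono (by omega) (Nat.le_succ n)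
      have g4 : |LF c (n + 1) - LF c n| ≤ 2 * (ε / Real.log (SG.ord n)) := by
        have : LF c (n + 1) - LF c n = (LF c (n + 1) - b) - (LF c n - b) := by ring
        rw [this]
        refine (abs_sub _ _).trans ?_
        linarith
      have g5 : La n * |LF c (n + 1) - LF c n| ≤ ε := by
        calc La n * |LF c (n + 1) - LF c n| ≤ sc (SG.ord n) * (2 * (ε / Real.log (SG.ord n))) :=
              mul_le_mul hL1 g4 (abs_nonneg _) (hL0.trans hL1)
          _ = ε / Real.pi := by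
              unfold sc
              field_simp
          _ ≤ ε := div_le_self hε.le (by linarith)
      have := min_le_right 1 |YJ c J (seen dl n)|
      linarith
  -- summation
  have hsplit : ∑ n ∈ Icc 1 N, min 1 |YJ c J (seen dl n)| ≤
      n0 + ∑ n ∈ Icc n0 N, min 1 |YJ c J (seen dl n)| := by
    have hsub : Icc 1 N ⊆ Icc 1 n0 ∪ Icc n0 N := by
      intro n hn
      rw [Finset.mem_union, Finset.mem_Icc, Finset.mem_Icc]
      rw [Finset.mem_Icc] at hn
      omega
    have hnn : ∀ n : ℕ, 0 ≤ min 1 |YJ c J (seen dl n)| := fun n => le_min zero_le_one (abs_nonneg _)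
    refine (Finset.sum_le_sum_of_subset_of_nonneg hsub fun n _ _ => hnn n).trans ?_
    have hun := Finset.sum_union_inter (s₁ := Icc 1 n0) (s₂ := Icc n0 N)
      (f := fun n => min 1 |YJ c J (seen dl n)|)
    have hin : 0 ≤ ∑ n ∈ Icc 1 n0 ∩ Icc n0 N, min 1 |YJ c J (seen dl n)| :=
      Finset.sum_nonneg fun n _ => hnn n
    have h1 : ∑ n ∈ Icc 1 n0, min 1 |YJ c J (seen dl n)| ≤ n0 := by
      refine (Finset.sum_le_sum fun n _ => min_le_left _ _).trans ?_
      rw [Finset.sum_const, Nat.card_Icc, nsmul_eq_mul, mul_one, Nat.add_sub_cancel]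
    linarith
  have hsum := Finset.sum_le_sum hpt
  rw [Finset.sum_add_distrib, Finset.sum_add_distrib] at hsum
  -- first part
  have hS1 : ∑ n ∈ Icc n0 N, (ε + (if n ∈ B then (1 : ℝ) else 0) + (if n + 1 ∈ B then 1 else 0) +
      (if n = N then 1 else 0)) ≤ ε * N + 2 * B.card + 1 := by
    rw [Finset.sum_add_distrib, Finset.sum_add_distrib, Finset.sum_add_distrib]
    have a1 : ∑ n ∈ Icc n0 N, ε ≤ ε * N := by
      rw [Finset.sum_const, Nat.card_Icc, nsmul_eq_mul, mul_comm]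
      refine mul_le_mul_of_nonneg_left ?_ hε.le
      exact_mod_cast (by omega : N + 1 - n0 ≤ N)
    have a2 : ∑ n ∈ Icc n0 N, (if n ∈ B then (1 : ℝ) else 0) ≤ B.card := by
      rw [← Finset.sum_filter, Finset.sum_const, nsmul_eq_mul, mul_one]
      exact_mod_cast Finset.card_le_card fun n hn => (Finset.mem_filter.1 hn).2
    have a3 : ∑ n ∈ Icc n0 N, (if n + 1 ∈ B then (1 : ℝ) else 0) ≤ B.card := by
      rw [← Finset.sum_filter, Finset.sum_const, nsmul_eq_mul, mul_one]
      have : ((Icc n0 N).filter fun n => n + 1 ∈ B).card ≤ B.card := by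
        refine Finset.card_le_card_of_injOn (fun n => n + 1) (fun n hn => ?_) fun a _ b _ hab => by
          simpa using hab
        exact (Finset.mem_filter.1 hn).2
      exact_mod_cast this
    have a4 : ∑ n ∈ Icc n0 N, (if n = N then (1 : ℝ) else 0) ≤ 1 := by
      rw [Finset.sum_ite_eq']
      split_ifs <;> norm_num
    linarith
  -- second part
  have hS2 : ∑ n ∈ Icc n0 N, η' * ∑ j ∈ Icc (-(J : ℤ)) J, K * r ^ j.natAbs * |seen dl n j| ≤ η * N := by
    rw [← Finset.mul_sum, Finset.sum_comm]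
    have a1 : ∑ j ∈ Icc (-(J : ℤ)) J, ∑ n ∈ Icc n0 N, K * r ^ j.natAbs * |seen dl n j| ≤ A * N := by
      rw [hA, Finset.sum_mul]
      refine Finset.sum_le_sum fun j _ => ?_
      rw [← Finset.mul_sum]
      have a5 : K * r ^ j.natAbs * (C2 * (1 + (j.natAbs : ℝ))) * N =
          K * r ^ j.natAbs * (C2 * (1 + (j.natAbs : ℝ)) * N) := by ring
      rw [a5]
      refine mul_le_mul_of_nonneg_left ?_ (by positivity)
      have a2 := hss j N
      simp only [zero_add, pow_one] at a2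
      have a3 : ∑ n ∈ Icc n0 N, |seen dl n j| ≤ ∑ n ∈ Icc 1 N, |seen dl n j| :=
        Finset.sum_le_sum_of_subset_of_nonneg (Finset.Icc_subset_Icc_left (by omega))
          fun _ _ _ => abs_nonneg _
      refine a3.trans (a2.trans ?_)
      push_cast
      rw [mul_assoc]
      refine mul_le_mul_of_nonneg_left ?_ hC2.le
      have : (0 : ℝ) ≤ (j.natAbs : ℝ) := Nat.cast_nonneg _
      nlinarith
    have a4 : η' * (A * N) ≤ η * N := by
      rw [hη', ← mul_assoc]
      refine mul_le_mul_of_nonneg_right ?_ (by positivity)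
      rw [div_mul_eq_mul_div, div_le_iff₀ (by positivity)]
      nlinarith
    exact (mul_le_mul_of_nonneg_left a1 hη'0.le).trans a4
  -- third part
  have hS3 : ∑ n ∈ Icc n0 N, La n * G n ≤ (∑' j, g j - ∑ j ∈ Icc (-(J : ℤ)) J, g j) * N := by
    have hcK : ∀ j : ℤ, |K * r ^ j.natAbs| ≤ K * r ^ j.natAbs := fun j =>
      (abs_of_nonneg (by positivity)).le
    have hw : ∀ n : ℕ, Summable fun j : ℤ => La n * ((if j ∈ Icc (-(J : ℤ)) J then 0 else K * r ^ j.natAbs) *
        (oz (n + 1 + j) - oz (n + j))) := by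
      intro n
      have w1 := oz_summable hr hr1 hcK (n + 1)
      have w0 := oz_summable hr hr1 hcK n
      have e0 : ∀ j : ℤ, ((n + 1 : ℕ) : ℤ) + j = (n : ℤ) + 1 + j := fun j => by push_cast; ring
      simp only [e0] at w1
      have w2 : Summable fun j : ℤ => K * r ^ j.natAbs * (oz (n + 1 + j) - oz (n + j)) :=
        (w1.sub w0).congr fun j => by ring
      obtain ⟨_, w3⟩ := tail_eq w2 (Icc (-(J : ℤ)) J)
      refine (w3.congr fun j => ?_).mul_left _
      split_ifs <;> ring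
    have e1 : ∑ n ∈ Icc n0 N, La n * G n = ∑' j : ℤ, ∑ n ∈ Icc n0 N,
        La n * ((if j ∈ Icc (-(J : ℤ)) J then 0 else K * r ^ j.natAbs) * (oz (n + 1 + j) - oz (n + j))) := by
      rw [Summable.tsum_finsetSum fun n _ => hw n]
      refine Finset.sum_congr rfl fun n _ => ?_
      rw [hG, tsum_mul_left]
    obtain ⟨t1, t2⟩ := tail_eq hgsum (Icc (-(J : ℤ)) J)
    rw [e1, ← t1, ← tsum_mul_right]
    refine Summable.tsum_le_tsum (fun j => ?_) (summable_sum fun n _ => hw n) (t2.mul_right _)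
    split_ifs with hj
    · simp
    · have a1 := hgs n0 (by omega) N hN j
      have e2 : ∑ n ∈ Icc n0 N, La n * (K * r ^ j.natAbs * (oz (n + 1 + j) - oz (n + j))) =
          K * r ^ j.natAbs * ∑ n ∈ Icc n0 N, La n * (oz (n + 1 + j) - oz (n + j)) := by
        rw [Finset.mul_sum]
        exact Finset.sum_congr rfl fun n _ => by ring
      rw [e2]
      refine (mul_le_mul_of_nonneg_left a1 (by positivity)).trans (le_of_eq ?_)
      rw [hg]
      ring
  have hfin : ∑ n ∈ Icc 1 N, min 1 |YJ c J (seen dl n)| ≤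
      n0 + (ε * N + 2 * B.card + 1 + η * N + (∑' j, g j - ∑ j ∈ Icc (-(J : ℤ)) J, g j) * N) := by
    linarith
  refine hfin.trans ?_
  push_cast
  linarith

end Pool.Agent.Q172.LI
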