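import Pool.Agent.Q172.LI.C2

/-!
# No linear relation of infinite length with exponentially small coefficients (helper172)
-/

set_option autoImplicit false

namespace Pool.Agent.Q172.LI

open Finset MeasureTheory Filter Topology
open Pool.Agent.Q278.GF Pool.Agent.Q278.MC Pool.Agent.Q278.KM
open Pool.Agent.Q172.PS
open _root_.Q172.ZetaLim (IsLim seen isLim_iff law tendsto_law_iff)

/-- the compact set of coefficients -/
def KC (K r : ℝ) : Set (ℤ → ℝ) := {c | (∀ j, |c j| ≤ K * r ^ j.natAbs) ∧ ∃ j, 1 ≤ |c j|}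

lemma KC_compact {K r : ℝ} (hK : 0 ≤ K) (hr : 0 < r) (hr1 : r < 1) : IsCompact (KC K r) := by
  classical
  have hbox : IsCompact (Set.pi Set.univ fun j : ℤ => Set.Icc (-(K * r ^ j.natAbs)) (K * r ^ j.natAbs)) :=
    isCompact_univ_pi fun j => isCompact_Icc
  -- only finitely many coordinates can be large
  obtain ⟨m, hm⟩ : ∃ m : ℕ, K * r ^ m < 1 := by
    have h1 : Tendsto (fun m : ℕ => K * r ^ m) atTop (𝓝 (K * 0)) :=
      (tendsto_pow_atTop_nhds_zero_of_lt_one hr.le hr1).const_mul K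
    rw [mul_zero] at h1
    exact (h1.eventually_lt_const one_pos).exists
  have he : KC K r = (Set.pi Set.univ fun j : ℤ => Set.Icc (-(K * r ^ j.natAbs)) (K * r ^ j.natAbs)) ∩
      ⋃ j ∈ (Icc (-(m : ℤ)) m : Finset ℤ), {c : ℤ → ℝ | 1 ≤ |c j|} := by
    ext c
    simp only [KC, Set.mem_ofPred_eq, Set.mem_inter_iff, Set.mem_pi, Set.mem_univ, true_implies,
      Set.mem_Icc, Set.mem_iUnion, exists_prop, abs_le]
    refine and_congr_right fun h1 => ⟨?_, ?_⟩
    · rintro ⟨j, hj⟩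
      refine ⟨j, ?_, hj⟩
      by_contra hcon
      rw [Finset.mem_Icc] at hcon
      have h2 : m ≤ j.natAbs := by omega
      have h3 : K * r ^ j.natAbs ≤ K * r ^ m :=
        mul_le_mul_of_nonneg_left (pow_le_pow_of_le_one hr.le hr1.le h2) hK
      have h4 : |c j| ≤ K * r ^ j.natAbs := abs_le.2 (h1 j)
      linarith
    · rintro ⟨j, _, hj⟩
      exact ⟨j, hj⟩
  rw [he]
  refine hbox.inter_right ?_
  refine Set.Finite.isClosed_biUnion (Finset.finite_toSet _) fun j _ => ?_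
  exact isClosed_le continuous_const (continuous_apply j).abs

/-- **no linear relation of infinite length holds between neighbouring ordinates for almost all n** -/
theorem main_D (K r : ℝ) (hr : 0 < r) (hr1 : r < 1) : ∃ ε : ℝ, 0 < ε ∧ ∀ᶠ N : ℕ in atTop,
    ∀ c : ℤ → ℝ, (∀ j, |c j| ≤ K * r ^ j.natAbs) → (∃ j, 1 ≤ |c j|) → ∀ b : ℝ,
      ε * N ≤ ((Icc 1 N).filter fun n => ε / Real.log (SG.ord n) ≤ |LF c n - b|).card := by
  classical
  rcases lt_or_ge K 0 with hK | hK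
  · refine ⟨1, one_pos, Eventually.of_forall fun N c hc _ => ?_⟩
    exfalso
    have := (abs_nonneg _).trans (hc 0)
    rw [Int.natAbs_zero, pow_zero, mul_one] at this
    linarith
  by_contra hcon
  push Not at hcon
  -- a bad sequence
  have hbad : ∀ m : ℕ, ∃ N : ℕ, m + 1 ≤ N ∧ ∃ c : ℤ → ℝ, c ∈ KC K r ∧ ∃ b : ℝ,
      (((Icc 1 N).filter fun n => (1 / ((m : ℝ) + 1)) / Real.log (SG.ord n) ≤ |LF c n - b|).card : ℝ) <
        1 / ((m : ℝ) + 1) * N := by
    intro m
    have h1 := hcon (1 / ((m : ℝ) + 1)) (by positivity)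
    obtain ⟨N, h2, h3⟩ := (h1.and_eventually (eventually_ge_atTop (m + 1))).exists
    obtain ⟨c, c1, c2, b, hb⟩ := h2
    exact ⟨N, h3, c, ⟨c1, c2⟩, b, hb⟩
  choose N hN c hc b hb using hbad
  have hN0 : ∀ m, N m = (N m - 1) + 1 := fun m => by have := hN m; omega
  have hNt : Tendsto (fun m => N m - 1) atTop atTop := by
    refine tendsto_atTop_mono (fun m => ?_) tendsto_id
    have := hN m
    simp only [id]
    omega
  obtain ⟨P, _, ψ, hψ, hlim⟩ := (_root_.Q172.ZetaLim.tight_compact _ dl_tight).tendsto_subseq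
    (x := fun j => law (seen dl) (N j - 1)) fun j => subset_closure ⟨N j - 1, rfl⟩
  obtain ⟨c0, hc0, φ, hφ, hclim⟩ := (KC_compact hK hr hr1).tendsto_subseq (x := fun j => c (ψ j))
    fun j => hc (ψ j)
  set χ : ℕ → ℕ := fun j => ψ (φ j) with hχ
  have hχm : StrictMono χ := hψ.comp hφ
  have hlim2 : Tendsto (fun j => law (seen dl) (N (χ j) - 1)) atTop (𝓝 P) :=
    hlim.comp hφ.tendsto_atTop
  have hPl : IsLim (seen dl) P := by
    rw [isLim_iff]
    refine MapClusterPt.of_comp (hNt.comp hχm.tendsto_atTop) ?_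
    exact hlim2.mapClusterPt
  obtain ⟨j1, hj1⟩ := hc0.2
  obtain ⟨v, J0, hv, hlow⟩ := low_P hr hr1 hc0.1 ⟨j1, fun h0 => by
    rw [h0, abs_zero] at hj1; linarith⟩ hPl
  obtain ⟨ρ, hρ, hmain⟩ := main_C hK hr hr1
  obtain ⟨J, hJ1, hJ2⟩ := ((hρ.eventually_lt_const (by positivity : 0 < v / 4)).and
    (eventually_ge_atTop J0)).exists
  obtain ⟨n0, hn0⟩ := hmain J (v / 4) (by positivity)
  obtain ⟨C2, hC2, hss⟩ := seen_sum 0
  -- the averages converge
  have hav := (tendsto_law_iff (seen dl) (fun j => N (χ j) - 1) P).1 hlim2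
    (BoundedContinuousFunction.ofNormedAddCommGroup (fun q => min 1 |YJ c0 J q|)
      (continuous_const.min (YJ_PG c0 J).cont.abs) 1 fun q => by
        rw [Real.norm_of_nonneg (le_min zero_le_one (abs_nonneg _))]
        exact min_le_left _ _)
  simp only [BoundedContinuousFunction.coe_ofNormedAddCommGroup] at hav
  have h5 := hlow J hJ2
  -- the coefficients converge
  have hcj : Tendsto (fun m => ∑ j ∈ Icc (-(J : ℤ)) J, |c (χ m) j - c0 j| * (C2 * (1 + (j.natAbs : ℝ))))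
      atTop (𝓝 0) := by
    have h1 : ∀ j ∈ Icc (-(J : ℤ)) J, Tendsto (fun m => |c (χ m) j - c0 j| * (C2 * (1 + (j.natAbs : ℝ))))
        atTop (𝓝 (|c0 j - c0 j| * (C2 * (1 + (j.natAbs : ℝ))))) := by
      intro j _
      have h2 : Tendsto (fun m => c (χ m) j) atTop (𝓝 (c0 j)) := (tendsto_pi_nhds.1 hclim) j
      exact ((h2.sub_const (c0 j)).abs).mul_const _
    have h3 := tendsto_finsetSum (Icc (-(J : ℤ)) J) h1
    have e : ∑ j ∈ Icc (-(J : ℤ)) J, |c0 j - c0 j| * (C2 * (1 + (j.natAbs : ℝ))) = 0 :=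
      Finset.sum_eq_zero fun j _ => by rw [sub_self, abs_zero, zero_mul]
    rwa [e] at h3
  have hinv : Tendsto (fun m : ℕ => 3 * (1 / ((χ m : ℝ) + 1)) + (n0 : ℝ) * (1 / ((χ m : ℝ) + 1))) atTop
      (𝓝 (3 * 0 + (n0 : ℝ) * 0)) := by
    have h1 : Tendsto (fun m : ℕ => 1 / ((χ m : ℝ) + 1)) atTop (𝓝 0) :=
      tendsto_one_div_add_atTop_nhds_zero_nat.comp hχm.tendsto_atTop
    exact (h1.const_mul 3).add (h1.const_mul _)
  rw [mul_zero, mul_zero, add_zero] at hinv
  obtain ⟨m, g1, g2, g3⟩ := (((Metric.tendsto_nhds.1 hav) (v / 8) (by positivity)).and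
    ((hcj.eventually_lt_const (by positivity : 0 < v / 8)).and
      (hinv.eventually_lt_const (by positivity : 0 < v / 8)))).exists
  rw [Real.dist_eq] at g1
  unfold _root_.Q172.ZetaLim.av at g1
  simp only [← hN0] at g1
  have hNm := hN (χ m)
  have hNp : (0 : ℝ) < N (χ m) := by exact_mod_cast (by omega : 0 < N (χ m))
  have hN1 : 1 ≤ N (χ m) := by omega
  have hNr : ((χ m : ℝ) + 1) ≤ N (χ m) := by exact_mod_cast hNm
  have k1 := hn0 (c (χ m)) (b (χ m)) (1 / ((χ m : ℝ) + 1)) (hc (χ m)).1 (by positivity) (N (χ m)) hN1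
  have k2 := hb (χ m)
  -- comparison of the filters with coefficients c m and c 0
  have k3 : ∑ n ∈ Icc 1 (N (χ m)), min 1 |YJ c0 J (seen dl n)| ≤
      ∑ n ∈ Icc 1 (N (χ m)), min 1 |YJ (c (χ m)) J (seen dl n)| +
        (∑ j ∈ Icc (-(J : ℤ)) J, |c (χ m) j - c0 j| * (C2 * (1 + (j.natAbs : ℝ)))) * N (χ m) := by
    have h1 : ∀ n ∈ Icc 1 (N (χ m)), min 1 |YJ c0 J (seen dl n)| ≤ min 1 |YJ (c (χ m)) J (seen dl n)| +
        ∑ j ∈ Icc (-(J : ℤ)) J, |c (χ m) j - c0 j| * |seen dl n j| := by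
      intro n _
      have h2 : |YJ c0 J (seen dl n)| ≤ |YJ (c (χ m)) J (seen dl n)| +
          ∑ j ∈ Icc (-(J : ℤ)) J, |c (χ m) j - c0 j| * |seen dl n j| := by
        have e : YJ c0 J (seen dl n) = YJ (c (χ m)) J (seen dl n) -
            ∑ j ∈ Icc (-(J : ℤ)) J, (c (χ m) j - c0 j) * seen dl n j := by
          unfold YJ
          rw [← Finset.sum_sub_distrib]
          exact Finset.sum_congr rfl fun j _ => by ring
        rw [e]
        refine (abs_sub _ _).trans (add_le_add le_rfl ((Finset.abs_sum_le_sum_abs _ _).trans (le_of_eq ?_)))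
        exact Finset.sum_congr rfl fun j _ => abs_mul _ _
      have h3 : 0 ≤ ∑ j ∈ Icc (-(J : ℤ)) J, |c (χ m) j - c0 j| * |seen dl n j| :=
        Finset.sum_nonneg fun j _ => by positivity
      rcases le_total 1 |YJ (c (χ m)) J (seen dl n)| with h | h
      · rw [min_eq_left h]
        have := min_le_left 1 |YJ c0 J (seen dl n)|
        linarith
      · rw [min_eq_right h]
        have := min_le_right 1 |YJ c0 J (seen dl n)|
        linarith
    refine (Finset.sum_le_sum h1).trans ?_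
    rw [Finset.sum_add_distrib, Finset.sum_comm, Finset.sum_mul]
    refine add_le_add le_rfl (Finset.sum_le_sum fun j _ => ?_)
    rw [← Finset.mul_sum, mul_assoc]
    refine mul_le_mul_of_nonneg_left ?_ (abs_nonneg _)
    have a2 := hss j (N (χ m))
    simp only [zero_add, pow_one] at a2
    refine a2.trans ?_
    push_cast
    rw [mul_assoc]
    refine mul_le_mul_of_nonneg_left ?_ hC2.le
    have : (0 : ℝ) ≤ (j.natAbs : ℝ) := Nat.cast_nonneg _
    have : (1 : ℝ) ≤ N (χ m) := by exact_mod_cast hN1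
    nlinarith
  -- conclusion
  have k4 : (∑ n ∈ Icc 1 (N (χ m)), min 1 |YJ c0 J (seen dl n)|) / (N (χ m) : ℝ) < 7 / 8 * v := by
    rw [div_lt_iff₀ hNp]
    have k5 : (n0 : ℝ) ≤ n0 * (1 / ((χ m : ℝ) + 1)) * N (χ m) := by
      rw [mul_assoc]
      refine le_mul_of_one_le_right (Nat.cast_nonneg _) ?_
      rw [div_mul_eq_mul_div, le_div_iff₀ (by positivity)]
      linarith
    have k6 : (3 * (1 / ((χ m : ℝ) + 1)) + (n0 : ℝ) * (1 / ((χ m : ℝ) + 1))) * N (χ m) <
        v / 8 * N (χ m) := mul_lt_mul_of_pos_right g3 hNp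
    have k7 : (∑ j ∈ Icc (-(J : ℤ)) J, |c (χ m) j - c0 j| * (C2 * (1 + (j.natAbs : ℝ)))) * N (χ m) <
        v / 8 * N (χ m) := mul_lt_mul_of_pos_right g2 hNp
    have k8 : ρ J * N (χ m) < v / 4 * N (χ m) := mul_lt_mul_of_pos_right hJ1 hNp
    nlinarith
  have k9 := (abs_lt.1 g1).1
  linarith

end Pool.Agent.Q172.LI
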